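import Pool.Agent.Y815.HF.Unit
import Pool.Agent.Helper954.Hopf.EX3

set_option autoImplicit false

namespace Pool.Agent.Results.MP_8bdec9_gt.AllLengths

open MeasureTheory Metric Set
open scoped ContDiff

section definitions

/-! Throughout, `W` is a finite dimensional Euclidean space (in the theorem `W = ℝ^(2m+2)`) and the
round sphere of radius `ρ` is `{x ∈ W | ‖x‖ = ρ}`, of sectional curvature `1/ρ²` and of dimension
`dim W - 1`. -/

variable {W : Type} [NormedAddCommGroup W] [InnerProductSpace ℝ W] [FiniteDimensional ℝ W]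

/-- The group `G` of linear isometries acts freely on the spheres about the origin. -/
def ActsFreely (G : Subgroup (W ≃ₗᵢ[ℝ] W)) : Prop :=
  ∀ g ∈ G, g ≠ 1 → ∀ x : W, x ≠ 0 → g x ≠ x

/-- The group `G` contains an element of prime order which has no fixed point on the spheres about
the origin. (`G` itself need not act freely: the quotient may be an orbifold.) -/
def HasFreeElement (G : Subgroup (W ≃ₗᵢ[ℝ] W)) : Prop :=
  ∃ g ∈ G, ∃ p : ℕ, p.Prime ∧ g ^ p = 1 ∧ ∀ x : W, g x = x → x = 0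

/-- The vector fields of class `C^k` on `M = (sphere of radius ρ)/G`, **of arbitrary, possibly
varying length**: the tangent vector fields of class `C^k` on the sphere of radius `ρ` that are
invariant under `G`. (A field on the sphere is given by an ambient map `V`, of class `C^k` near each
point of the sphere.) -/
structure IsField (k : ℕ∞) (G : Subgroup (W ≃ₗᵢ[ℝ] W)) (ρ : ℝ) (V : W → W) : Prop where
  smooth : ∀ x, ‖x‖ = ρ → ContDiffAt ℝ k V x
  tangent : ∀ x, ‖x‖ = ρ → (inner ℝ x (V x) : ℝ) = 0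
  invariant : ∀ g ∈ G, ∀ x, ‖x‖ = ρ → V (g x) = g (V x)

/-- The Levi-Civita covariant derivative `∇V` at the point `x` of the sphere, an endomorphism of
the tangent space `x^⊥`: the tangential part of the ambient derivative. -/
noncomputable def nabla (V : W → W) (x : W) :
    ((ℝ ∙ x)ᗮ : Submodule ℝ W) →L[ℝ] ((ℝ ∙ x)ᗮ : Submodule ℝ W) :=
  (ℝ ∙ x)ᗮ.orthogonalProjectionOnto ∘L fderiv ℝ V x ∘L (ℝ ∙ x)ᗮ.subtypeL

/-- `√det(I + Aᵗ A)` for an endomorphism `A` of a Euclidean space. -/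
noncomputable def sqrtDet (A : W →L[ℝ] W) : ℝ :=
  Real.sqrt (ContinuousLinearMap.id ℝ W + A.adjoint ∘L A).det

/-- The volume density `√det(I + (∇V)ᵗ ∇V)` at `x` (a determinant on the tangent space `x^⊥`). -/
noncomputable def density (V : W → W) (x : W) : ℝ := sqrtDet (nabla V x)

variable [MeasurableSpace W] [BorelSpace W]

/-- The integral over `M = (sphere of radius ρ)/G` of a `G`-invariant function `f` on the sphere of
radius `ρ`: `1/|G|` times its integral over that sphere, written in terms of the surface measure of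
the unit sphere. -/
noncomputable def integralM (G : Subgroup (W ≃ₗᵢ[ℝ] W)) (ρ : ℝ) (f : W → ℝ) : ℝ :=
  (Nat.card G : ℝ)⁻¹ * ∫ u : sphere (0 : W) 1, ρ ^ (Module.finrank ℝ W - 1) * f (ρ • (u : W))
    ∂(volume : Measure W).toSphere

/-- The volume of the vector field `V` on `M`. -/
noncomputable def Vol (G : Subgroup (W ≃ₗᵢ[ℝ] W)) (ρ : ℝ) (V : W → W) : ℝ :=
  integralM G ρ (density V)

/-- The volume of the vector field `V` on `M`, with the weight `(1 + c |V|²)^(-m)`, where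
`c = 1/ρ²` is the curvature. -/
noncomputable def weightedVol (m : ℕ) (G : Subgroup (W ≃ₗᵢ[ℝ] W)) (ρ : ℝ) (V : W → W) : ℝ :=
  integralM G ρ (fun x => density V x / (1 + ‖V x‖ ^ 2 / ρ ^ 2) ^ m)

/-- The volume of `M`. -/
noncomputable def volM (G : Subgroup (W ≃ₗᵢ[ℝ] W)) (ρ : ℝ) : ℝ :=
  integralM G ρ (fun _ => 1)

/-- `V` is a Hopf field of length `r`: on the sphere of radius `ρ` it is `x ↦ J x` with `J` linear
and skew-symmetric, and of constant length `r` (a Killing field of constant length `r`). -/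
def IsHopf (ρ r : ℝ) (V : W → W) : Prop :=
  ∃ J : W →L[ℝ] W, (∀ x, (inner ℝ x (J x) : ℝ) = 0) ∧ (∀ x, ‖x‖ = ρ → ‖J x‖ = r) ∧
    ∀ x, ‖x‖ = ρ → V x = J x

/-- `𝒱(M, r)`: the infimum of the volumes of the smooth vector fields of length `r` on `M`. -/
noncomputable def infVol (G : Subgroup (W ≃ₗᵢ[ℝ] W)) (ρ r : ℝ) : ℝ :=
  sInf {v : ℝ | ∃ V, IsField ⊤ G ρ V ∧ (∀ x, ‖x‖ = ρ → ‖V x‖ = r) ∧ Vol G ρ V = v}

/-- The infimum of the volumes of the `C¹` vector fields on `M` whose length is at least `r`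
everywhere. -/
noncomputable def infVolLong (G : Subgroup (W ≃ₗᵢ[ℝ] W)) (ρ r : ℝ) : ℝ :=
  sInf {v : ℝ | ∃ V, IsField 1 G ρ V ∧ (∀ x, ‖x‖ = ρ → r ≤ ‖V x‖) ∧ Vol G ρ V = v}

/-- **The weighted inequality for fields of arbitrary length**: for every `C¹` vector field `V` on
`M`, `∫_M (1 + c|V|²)^(-m) √det(I + (∇V)ᵗ∇V) ≥ vol(M)`, with equality exactly for the Hopf fields
(of arbitrary constant length `r ≥ 0`; `r = 0` is the zero field). -/
def WeightedInequality (m : ℕ) (G : Subgroup (W ≃ₗᵢ[ℝ] W)) (ρ : ℝ) : Prop :=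
  ∀ V, IsField 1 G ρ V → volM G ρ ≤ weightedVol m G ρ V ∧
    (weightedVol m G ρ V = volM G ρ ↔ ∃ r, 0 ≤ r ∧ IsHopf ρ r V)

/-- **The minimisers are the Hopf fields**:
* `M` carries a smooth Hopf field of length `r`;
* `𝒱(M, r) = (1 + c r²)^m vol(M)`, and this is also the infimum of the volumes of all `C¹` fields
  whose length is at least `r` everywhere;
* a `C¹` vector field `V` of constant length `r` has `Vol(V) = 𝒱(M, r)` if and only if it is a
  Hopf field;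
* for `m ≥ 1`, a `C¹` vector field `V` whose length is at least `r` everywhere has
  `Vol(V) = 𝒱(M, r)` if and only if it is a Hopf field of length `r`. -/
def MinimisersAreHopf (m : ℕ) (G : Subgroup (W ≃ₗᵢ[ℝ] W)) (ρ r : ℝ) : Prop :=
  (∃ H, IsField ⊤ G ρ H ∧ IsHopf ρ r H) ∧
  infVol G ρ r = (1 + r ^ 2 / ρ ^ 2) ^ m * volM G ρ ∧
  infVolLong G ρ r = infVol G ρ r ∧
  (∀ V, IsField 1 G ρ V → (∀ x, ‖x‖ = ρ → ‖V x‖ = r) → (Vol G ρ V = infVol G ρ r ↔ IsHopf ρ r V)) ∧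
  (1 ≤ m → ∀ V, IsField 1 G ρ V → (∀ x, ‖x‖ = ρ → r ≤ ‖V x‖) →
    (Vol G ρ V = infVol G ρ r ↔ IsHopf ρ r V))

variable (W) in
/-- The statement for all spheres of `W`, all radii `ρ > 0` (all curvatures `c = 1/ρ²`) and all finite
groups `G` of linear isometries:
* if `G` contains an element of prime order without fixed points on the spheres then the weighted
  inequality holds on the quotient (a manifold or an orbifold);
* if `G` is nontrivial and acts freely then it contains such an element and, for all `r > 0`, the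
  minimisers of the volume are the Hopf fields of length `r`, even among all `C¹` fields whose length
  is at least `r` everywhere. -/
def HopfFieldsMinimiseAmongAllLengths (m : ℕ) : Prop :=
  ∀ ρ : ℝ, 0 < ρ → ∀ G : Subgroup (W ≃ₗᵢ[ℝ] W), Finite G →
    (HasFreeElement G → WeightedInequality m G ρ) ∧
    (ActsFreely G → G ≠ ⊥ → HasFreeElement G ∧ ∀ r : ℝ, 0 < r → MinimisersAreHopf m G ρ r)

end definitions

open Pool.Agent.Helper82.Hf (La dn Lin det_compress nrm)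
open Pool.Agent.Y815.HF (UV wd wd_cont area_pos)

section aux

section longdef
variable {W : Type} [NormedAddCommGroup W] [InnerProductSpace ℝ W] [FiniteDimensional ℝ W]
  [MeasurableSpace W] [BorelSpace W]

/-- The volume of long fields: every `C¹` vector field `V` on `M` whose length is at least
`r` everywhere has volume at least `(1 + c r²)^m vol(M)`, with equality (for `m ≥ 1`) exactly for the
Hopf fields of length `r`. -/
def LongFields (m : ℕ) (G : Subgroup (W ≃ₗᵢ[ℝ] W)) (ρ r : ℝ) : Prop :=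
  ∀ V, IsField 1 G ρ V → (∀ x, ‖x‖ = ρ → r ≤ ‖V x‖) →
    (1 + r ^ 2 / ρ ^ 2) ^ m * volM G ρ ≤ Vol G ρ V ∧
    (1 ≤ m → (Vol G ρ V = (1 + r ^ 2 / ρ ^ 2) ^ m * volM G ρ ↔ IsHopf ρ r V))

end longdef

/-- The Euclidean space `ℝ^(2m+2)`, which contains the round spheres `S^(2m+1)(ρ)`. -/
abbrev Amb (m : ℕ) := EuclideanSpace ℝ (Fin (2 * m + 2))

variable {m : ℕ} {ρ r : ℝ} {V : Amb m → Amb m} {G : Subgroup (Amb m ≃ₗᵢ[ℝ] Amb m)}

/-- the rescaled field on the unit sphere -/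
noncomputable def V1 (ρ : ℝ) (V : Amb m → Amb m) (u : Amb m) : Amb m := ρ⁻¹ • V (ρ • u)

theorem nrmρ (hρ : 0 < ρ) {u : Amb m} (hu : ‖u‖ = 1) : ‖ρ • u‖ = ρ := by
  rw [norm_smul, hu, mul_one, Real.norm_eq_abs, abs_of_pos hρ]

theorem V1_fderiv (hρ : 0 < ρ) (hV : IsField 1 G ρ V) {u : Amb m} (hu : ‖u‖ = 1) :
    fderiv ℝ (V1 ρ V) u = fderiv ℝ V (ρ • u) := by
  have hn : ‖ρ • u‖ = ρ := nrmρ hρ hu
  have h1 : HasFDerivAt V (fderiv ℝ V (ρ • u)) (ρ • u) :=
    ((hV.smooth _ hn).differentiableAt (by simp)).hasFDerivAt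
  have h2 : HasFDerivAt (fun u : Amb m => ρ • u) (ρ • ContinuousLinearMap.id ℝ (Amb m)) u :=
    (hasFDerivAt_id u).const_smul ρ
  have h3 : HasFDerivAt (V1 ρ V) (ρ⁻¹ • ((fderiv ℝ V (ρ • u)).comp (ρ • ContinuousLinearMap.id ℝ (Amb m)))) u :=
    (HasFDerivAt.comp (g := V) u h1 h2).const_smul ρ⁻¹
  rw [h3.fderiv]
  refine ContinuousLinearMap.ext fun v => ?_
  simp [smul_smul, inv_mul_cancel₀ hρ.ne']

theorem density_eq (hρ : 0 < ρ) (hV : IsField 1 G ρ V) {u : Amb m} (hu : ‖u‖ = 1) :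
    density V (ρ • u) = dn (V1 ρ V) u := by
  have hspan : (ℝ ∙ (ρ • u) : Submodule ℝ (Amb m)) = ℝ ∙ u :=
    Submodule.span_singleton_smul_eq (IsUnit.mk0 ρ hρ.ne') u
  have h1 := det_compress ((ℝ ∙ (ρ • u))ᗮ : Submodule ℝ (Amb m)) (fderiv ℝ V (ρ • u))
  unfold density sqrtDet dn La
  rw [V1_fderiv hρ hV hu]
  have h2 : (ContinuousLinearMap.id ℝ ((ℝ ∙ (ρ • u))ᗮ : Submodule ℝ (Amb m)) +
    (nabla V (ρ • u)).adjoint ∘L nabla V (ρ • u)).det = _ := h1
  rw [h2]
  simp only [hspan]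

theorem V1_norm (hρ : 0 < ρ) (V : Amb m → Amb m) (u : Amb m) : ‖V1 ρ V u‖ = ‖V (ρ • u)‖ / ρ := by
  unfold V1
  rw [norm_smul, norm_inv, Real.norm_eq_abs, abs_of_pos hρ, inv_mul_eq_div]

theorem V1_UV (hρ : 0 < ρ) (hV : IsField 1 G ρ V) {g : Amb m ≃ₗᵢ[ℝ] Amb m} (hg : g ∈ G) :
    UV g (V1 ρ V) := by
  refine ⟨?_, ?_, ?_⟩
  · intro x hx
    have h1 : ContDiffAt ℝ 1 V (ρ • x) := hV.smooth _ (nrmρ hρ hx)
    have h2 : ContDiffAt ℝ 1 (fun u : Amb m => ρ • u) x := (contDiff_const_smul ρ).contDiffAt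
    exact (ContDiffAt.comp (g := V) x h1 h2).const_smul ρ⁻¹
  · intro x hx
    have h1 := hV.tangent _ (nrmρ hρ hx)
    rw [inner_smul_left] at h1
    simp only [conj_trivial, mul_eq_zero, hρ.ne', false_or] at h1
    unfold V1
    rw [inner_smul_right, h1, mul_zero]
  · intro x hx
    unfold V1
    rw [← map_smul, hV.invariant g hg _ (nrmρ hρ hx), map_smul]

theorem Lin_iff (hρ : 0 < ρ) (hr : 0 ≤ r) : Lin (V1 ρ V) (r / ρ) ↔ IsHopf ρ r V := by
  have hn' : ∀ x : Amb m, ‖x‖ = ρ → ‖ρ⁻¹ • x‖ = 1 := by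
    intro x hx
    rw [norm_smul, norm_inv, hx, Real.norm_eq_abs, abs_of_pos hρ, inv_mul_cancel₀ hρ.ne']
  constructor
  · rintro ⟨J, h1, h2, h3⟩
    refine ⟨J, h1, fun x hx => ?_, fun x hx => ?_⟩
    · rw [h2, hx]; field_simp
    · have h4 := h3 _ (hn' x hx)
      unfold V1 at h4
      rw [smul_smul, mul_inv_cancel₀ hρ.ne', one_smul, map_smul] at h4
      exact smul_right_injective _ (inv_ne_zero hρ.ne') h4
  · rintro ⟨J, h1, h2, h3⟩
    refine ⟨J, h1, fun x => ?_, fun x hx => ?_⟩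
    · by_cases hx : x = 0
      · rw [hx]; simp
      · have hx' : ‖x‖ ≠ 0 := norm_ne_zero_iff.mpr hx
        have h4 := h2 (ρ • ‖x‖⁻¹ • x) (nrmρ hρ (nrm hx))
        rw [map_smul, map_smul, norm_smul, norm_smul, norm_inv, norm_norm, Real.norm_eq_abs,
          abs_of_pos hρ] at h4
        field_simp at h4 ⊢
        linarith
    · unfold V1
      rw [h3 _ (nrmρ hρ hx), map_smul, smul_smul, inv_mul_cancel₀ hρ.ne', one_smul]

/-- the normalising constant -/
noncomputable def cst (m : ℕ) (G : Subgroup (Amb m ≃ₗᵢ[ℝ] Amb m)) (ρ : ℝ) : ℝ :=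
  (Nat.card G : ℝ)⁻¹ * ρ ^ (2 * m + 1)

theorem cst_pos [Finite G] (hρ : 0 < ρ) : 0 < cst m G ρ := by
  have : 0 < (Nat.card G : ℝ) := by exact_mod_cast Nat.card_pos
  unfold cst
  positivity

theorem volM_eq : volM G ρ = cst m G ρ * (volume : Measure (Amb m)).toSphere.real univ := by
  unfold volM integralM cst
  rw [integral_const, smul_eq_mul, finrank_euclideanSpace_fin]
  show _ * (_ * (ρ ^ (2 * m + 1) * 1)) = _
  ring

theorem Vol_eq (hρ : 0 < ρ) (hV : IsField 1 G ρ V) : Vol G ρ V = cst m G ρ *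
    ∫ u : sphere (0 : Amb m) 1, dn (V1 ρ V) u ∂(volume : Measure (Amb m)).toSphere := by
  unfold Vol integralM cst
  rw [integral_const_mul, mul_assoc, finrank_euclideanSpace_fin]
  show _ * (ρ ^ (2 * m + 1) * _) = _
  congr 2
  apply integral_congr_ae
  filter_upwards with u
  exact density_eq hρ hV (by simp)

theorem weightedVol_eq (hρ : 0 < ρ) (hV : IsField 1 G ρ V) : weightedVol m G ρ V = cst m G ρ *
    ∫ u : sphere (0 : Amb m) 1, wd m (V1 ρ V) u ∂(volume : Measure (Amb m)).toSphere := by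
  unfold weightedVol integralM cst
  rw [integral_const_mul, mul_assoc, finrank_euclideanSpace_fin]
  show _ * (ρ ^ (2 * m + 1) * _) = _
  congr 2
  apply integral_congr_ae
  filter_upwards with u
  show density V (ρ • (u : Amb m)) / (1 + ‖V (ρ • (u : Amb m))‖ ^ 2 / ρ ^ 2) ^ m = wd m (V1 ρ V) u
  unfold wd
  rw [density_eq hρ hV (by simp), V1_norm hρ, div_pow]

theorem weighted [Finite G] (hG : HasFreeElement G) (hρ : 0 < ρ) : WeightedInequality m G ρ := by
  intro V hV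
  obtain ⟨g, hg, p, hp, hgp, hgf⟩ := hG
  obtain ⟨h1, h2⟩ := Pool.Agent.Y815.HF.weighted (V1_UV hρ hV hg) hp hgp hgf
  have hc := cst_pos (m := m) (G := G) hρ
  rw [volM_eq, weightedVol_eq hρ hV]
  refine ⟨mul_le_mul_of_nonneg_left h1 hc.le, ?_⟩
  rw [mul_right_inj' hc.ne']
  refine h2.trans ⟨?_, ?_⟩
  · rintro ⟨s, hs, hl⟩
    refine ⟨s * ρ, by positivity, (Lin_iff hρ (by positivity)).mp ?_⟩
    rwa [mul_div_cancel_right₀ _ hρ.ne']
  · rintro ⟨r, hr, hl⟩
    exact ⟨r / ρ, by positivity, (Lin_iff hρ hr).mpr hl⟩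

theorem long_aux [Finite G] (hG : HasFreeElement G) (hρ : 0 < ρ) (hr : 0 ≤ r) (hV : IsField 1 G ρ V)
    (hlen : ∀ x, ‖x‖ = ρ → r ≤ ‖V x‖) :
    (1 + r ^ 2 / ρ ^ 2) ^ m * volM G ρ ≤ Vol G ρ V ∧
    (Vol G ρ V = (1 + r ^ 2 / ρ ^ 2) ^ m * volM G ρ →
      ∃ s, 0 ≤ s ∧ IsHopf ρ s V ∧ (1 + s ^ 2 / ρ ^ 2) ^ m = (1 + r ^ 2 / ρ ^ 2) ^ m) ∧
    (IsHopf ρ r V → Vol G ρ V = (1 + r ^ 2 / ρ ^ 2) ^ m * volM G ρ) := by
  obtain ⟨g, hg, p, hp, hgp, hgf⟩ := hG
  have hlen' : ∀ u : Amb m, ‖u‖ = 1 → r / ρ ≤ ‖V1 ρ V u‖ := by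
    intro u hu
    rw [V1_norm hρ]
    exact div_le_div_of_nonneg_right (hlen _ (nrmρ hρ hu)) hρ.le
  obtain ⟨h1, h2, h3⟩ := Pool.Agent.Y815.HF.long (V1_UV hρ hV hg) hp hgp hgf (by positivity) hlen'
  have hc := cst_pos (m := m) (G := G) hρ
  rw [volM_eq, Vol_eq hρ hV]
  simp only [div_pow] at h1 h2 h3
  refine ⟨?_, fun he => ?_, fun hl => ?_⟩
  · rw [mul_left_comm]
    exact mul_le_mul_of_nonneg_left h1 hc.le
  · rw [mul_left_comm, mul_right_inj' hc.ne'] at he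
    obtain ⟨s, hs, hl, hs2⟩ := h2 he
    refine ⟨s * ρ, by positivity, (Lin_iff hρ (by positivity)).mp ?_, ?_⟩
    · rwa [mul_div_cancel_right₀ _ hρ.ne']
    · rw [mul_pow, mul_div_cancel_right₀ _ (pow_ne_zero 2 hρ.ne')]
      exact hs2
  · rw [mul_left_comm, mul_right_inj' hc.ne']
    exact h3 ((Lin_iff hρ hr).mpr hl)

theorem hopf_len {s : ℝ} (hρ : 0 < ρ) (h : IsHopf ρ s V) : ∀ x, ‖x‖ = ρ → ‖V x‖ = s := by
  obtain ⟨J, h1, h2, h3⟩ := h
  intro x hx
  rw [h3 x hx, h2 x hx]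

theorem long [Finite G] (hG : HasFreeElement G) (hρ : 0 < ρ) (hr : 0 ≤ r) : LongFields m G ρ r := by
  intro V hV hlen
  obtain ⟨h1, h2, h3⟩ := long_aux hG hρ hr hV hlen
  refine ⟨h1, fun hm => ⟨fun he => ?_, h3⟩⟩
  obtain ⟨s, hs, hl, he2⟩ := h2 he
  have h4 : 1 + s ^ 2 / ρ ^ 2 = 1 + r ^ 2 / ρ ^ 2 :=
    (pow_left_inj₀ (by positivity) (by positivity) (by omega)).mp he2
  have h5 : s ^ 2 = r ^ 2 := by
    have : s ^ 2 / ρ ^ 2 = r ^ 2 / ρ ^ 2 := by linarith
    rwa [div_left_inj' (pow_ne_zero 2 hρ.ne')] at this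
  rwa [(sq_eq_sq₀ hs hr).mp h5] at hl

/-- a point of the sphere -/
theorem exists_pt (m : ℕ) (hρ : 0 < ρ) : ∃ x : Amb m, ‖x‖ = ρ := by
  refine ⟨ρ • EuclideanSpace.single 0 1, nrmρ hρ (by simp)⟩

theorem const [Finite G] (hG : HasFreeElement G) (hρ : 0 < ρ) (hr : 0 ≤ r) (hV : IsField 1 G ρ V)
    (hlen : ∀ x, ‖x‖ = ρ → ‖V x‖ = r) :
    Vol G ρ V = (1 + r ^ 2 / ρ ^ 2) ^ m * volM G ρ ↔ IsHopf ρ r V := by
  obtain ⟨h1, h2, h3⟩ := long_aux hG hρ hr hV (fun x hx => (hlen x hx).ge)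
  refine ⟨fun he => ?_, h3⟩
  obtain ⟨s, hs, hl, he2⟩ := h2 he
  obtain ⟨x, hx⟩ := exists_pt m hρ
  have : s = r := by rw [← hopf_len hρ hl x hx, hlen x hx]
  rwa [this] at hl

/-- existence of a Hopf field -/
theorem exists_hopf [Finite G] (hfree : ActsFreely G) (hρ : 0 < ρ) (hr : 0 < r) :
    ∃ H, IsField ⊤ G ρ H ∧ IsHopf ρ r H := by
  obtain ⟨J, h1, h2, h3⟩ := Pool.Agent.Helper954.Hopf.EX3.exists_J_all (W := Amb m)
    (by rw [finrank_euclideanSpace_fin]; exact ⟨m + 1, by ring⟩) G hfree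
  have hs : ∀ x, (inner ℝ x (((r / ρ) • J) x) : ℝ) = 0 := by
    intro x
    rw [_root_.smul_apply, inner_smul_right, h1, mul_zero]
  have hl : ∀ x, ‖x‖ = ρ → ‖((r / ρ) • J) x‖ = r := by
    intro x hx
    rw [_root_.smul_apply, norm_smul, h2, hx, Real.norm_eq_abs, abs_of_pos (by positivity)]
    field_simp
  refine ⟨fun x => ((r / ρ) • J) x, ⟨?_, fun x _ => hs x, ?_⟩, (r / ρ) • J, hs, hl, fun x _ => rfl⟩
  · intro x _
    exact ((r / ρ) • J).contDiff.contDiffAt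
  · intro g hg x _
    show ((r / ρ) • J) (g x) = g (((r / ρ) • J) x)
    rw [_root_.smul_apply, _root_.smul_apply, h3 g hg, map_smul]

theorem free_elt [Finite G] (hfree : ActsFreely G) (hne : G ≠ ⊥) : HasFreeElement G := by
  have hcard : Nat.card G ≠ 1 := by
    intro h1
    exact hne (Subgroup.card_eq_one.mp h1)
  set p := (Nat.card G).minFac with hp
  have hpp : p.Prime := Nat.minFac_prime hcard
  have hpd : p ∣ Nat.card G := Nat.minFac_dvd _
  have : Fact p.Prime := ⟨hpp⟩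
  obtain ⟨g, hg⟩ := exists_prime_orderOf_dvd_card' (G := G) p hpd
  have hg1 : (g : Amb m ≃ₗᵢ[ℝ] Amb m) ≠ 1 := by
    intro hh
    have h1 : g = 1 := Subtype.ext hh
    rw [h1, orderOf_one] at hg
    exact hpp.one_lt.ne hg
  have hgp : (g : Amb m ≃ₗᵢ[ℝ] Amb m) ^ p = 1 := by
    have h0 := pow_orderOf_eq_one g
    rw [hg] at h0
    have h1 := congrArg Subtype.val h0
    exact h1
  refine ⟨g, g.2, p, hpp, hgp, fun x hx => ?_⟩
  by_contra h0
  exact hfree _ g.2 hg1 x h0 hx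

theorem minimisers [Finite G] (hfree : ActsFreely G) (hne : G ≠ ⊥) (hρ : 0 < ρ) (hr : 0 < r) :
    MinimisersAreHopf m G ρ r := by
  have hG := free_elt hfree hne
  obtain ⟨H, hH, hHopf⟩ := exists_hopf (m := m) hfree hρ hr
  have hle : ∀ V, IsField ⊤ G ρ V → IsField 1 G ρ V := fun V hV =>
    ⟨fun x hx => (hV.smooth x hx).of_le (by exact_mod_cast le_top), hV.tangent, hV.invariant⟩
  have hHlen := hopf_len hρ hHopf
  have hHv := (const hG hρ hr.le (hle H hH) hHlen).mpr hHopf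
  have hinf : infVol G ρ r = (1 + r ^ 2 / ρ ^ 2) ^ m * volM G ρ := by
    have h1 : IsLeast {v : ℝ | ∃ V, IsField ⊤ G ρ V ∧ (∀ x, ‖x‖ = ρ → ‖V x‖ = r) ∧ Vol G ρ V = v}
        ((1 + r ^ 2 / ρ ^ 2) ^ m * volM G ρ) := by
      refine ⟨⟨H, hH, hHlen, hHv⟩, ?_⟩
      rintro _ ⟨V, hV, hl, rfl⟩
      exact (long hG hρ hr.le V (hle V hV) fun x hx => (hl x hx).ge).1
    exact h1.csInf_eq
  have hinf2 : infVolLong G ρ r = (1 + r ^ 2 / ρ ^ 2) ^ m * volM G ρ := by
    have h1 : IsLeast {v : ℝ | ∃ V, IsField 1 G ρ V ∧ (∀ x, ‖x‖ = ρ → r ≤ ‖V x‖) ∧ Vol G ρ V = v}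
        ((1 + r ^ 2 / ρ ^ 2) ^ m * volM G ρ) := by
      refine ⟨⟨H, hle H hH, fun x hx => (hHlen x hx).ge, hHv⟩, ?_⟩
      rintro _ ⟨V, hV, hl, rfl⟩
      exact (long hG hρ hr.le V hV hl).1
    exact h1.csInf_eq
  refine ⟨⟨H, hH, hHopf⟩, hinf, hinf2.trans hinf.symm, fun V hV hl => ?_, fun hm V hV hl => ?_⟩
  · rw [hinf]
    exact const hG hρ hr.le hV hl
  · rw [hinf]
    exact (long hG hρ hr.le V hV hl).2 hm

end aux

/-- **Hopf fields minimise the volume, even among fields of varying length.** Let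
`M = S^(2m+1)(ρ)/G` with `G` a nontrivial finite group acting freely by isometries, and let
`c = 1/ρ²` be its curvature. Every `C¹` vector field `V` on `M` satisfies
`∫_M (1 + c|V|²)^(-m) √det(I + (∇V)ᵗ∇V) ≥ vol(M)`, with equality exactly for the Hopf fields. Hence,
for every `r > 0`, the minimisers of the volume among all `C¹` fields whose length is at least `r`
everywhere (in particular among the smooth fields of constant length `r`) are exactly the Hopf fields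
of length `r` (`m ≥ 1`; for fields of constant length also `m = 0`). The first inequality, with its
equality case, also holds on the orbifolds `S^(2m+1)(ρ)/G`, where the finite group `G` is only
supposed to contain an element of prime order without fixed points. -/
theorem result (m : ℕ) :
    HopfFieldsMinimiseAmongAllLengths (EuclideanSpace ℝ (Fin (2 * m + 2))) m := by
  intro ρ hρ G hfin
  exact ⟨fun hG => weighted hG hρ, fun hfree hne =>
    ⟨free_elt hfree hne, fun r hr => minimisers hfree hne hρ hr⟩⟩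

end Pool.Agent.Results.MP_8bdec9_gt.AllLengths
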